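import Mathlib
import Pool.Agent.H.MP_c2536d_co.B

set_option autoImplicit false

namespace Pool.Agent.Results.MP_c2536d_co.OrAnd

open Finset Pool.Agent.H.MP_c2536d_co

/-- the sign of a bit -/
def sg (b : Bool) : ℝ := if b then 1 else -1

/-- Walsh character -/
def chi {m : ℕ} (S : Finset (Fin m)) (x : Fin m → Bool) : ℝ := ∏ i ∈ S, sg (x i)

/-- Fourier-Walsh coefficient of a Boolean function -/
noncomputable def coef {m : ℕ} (f : (Fin m → Bool) → Bool) (S : Finset (Fin m)) : ℝ :=
  Ex (fun x => sg (f x) * chi S x)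

theorem sg_or (b : Bool) : sg b = 1 ∨ sg b = -1 := by cases b <;> simp [sg]

theorem sg_not (b : Bool) : sg (!b) = -sg b := by cases b <;> simp [sg]

theorem chi_dep {m : ℕ} {p : Fin m → Prop} {S : Finset (Fin m)} (h : ∀ i ∈ S, p i) :
    Dep p (chi S) := fun x y hxy => prod_congr rfl fun i hi => by rw [hxy i (h i hi)]

theorem Ex_sg {m : ℕ} (i : Fin m) : Ex (fun x => sg (x i)) = 0 := by
  have inv : Function.Involutive (fun x : Fin m → Bool => fun k => !x k) := by
    intro x; simp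
  have h := Equiv.sum_comp inv.toPerm (fun x => sg (x i))
  simp only [Function.Involutive.coe_toPerm, sg_not, sum_neg_distrib] at h
  have : ∑ x : Fin m → Bool, sg (x i) = 0 := by linarith
  simp [Ex, this]

theorem chi_ne {m : ℕ} {S T : Finset (Fin m)} {i : Fin m} (h1 : i ∈ S) (h2 : i ∉ T) :
    Ex (fun x => chi S x * chi T x) = 0 := by
  have : ∀ x, chi S x * chi T x = sg (x i) * (chi (S.erase i) x * chi T x) := by
    intro x
    rw [← mul_assoc, chi, ← mul_prod_erase _ _ h1]; rfl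
  rw [Ex_congr this, ind (p := fun k => k = i) (fun x y h => by rw [h i rfl]), Ex_sg, zero_mul]
  intro x y h
  have a := chi_dep (p := fun k => ¬ k = i) (S := S.erase i) (fun k hk => (mem_erase.1 hk).1) x y h
  have b := chi_dep (p := fun k => ¬ k = i) (S := T) (fun k hk e => h2 (e ▸ hk)) x y h
  simp only [a, b]

theorem chi_orth {m : ℕ} (S T : Finset (Fin m)) :
    Ex (fun x => chi S x * chi T x) = if S = T then 1 else 0 := by
  split_ifs with h
  · subst h
    rw [← Ex_const (m := m) 1]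
    refine Ex_congr fun x => ?_
    rw [chi, ← prod_mul_distrib]
    exact prod_eq_one fun i _ => by rcases sg_or (x i) with h | h <;> rw [h] <;> norm_num
  · by_cases hs : S ⊆ T
    · have : ¬ T ⊆ S := fun ht => h (Subset.antisymm hs ht)
      obtain ⟨i, h1, h2⟩ := not_subset.1 this
      rw [← chi_ne h1 h2]
      exact Ex_congr fun x => mul_comm _ _
    · obtain ⟨i, h1, h2⟩ := not_subset.1 hs
      exact chi_ne h1 h2

theorem bessel {m : ℕ} (F : Finset (Finset (Fin m))) (g : (Fin m → Bool) → ℝ) :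
    ∑ S ∈ F, Ex (fun x => g x * chi S x) ^ 2 ≤ Ex (fun x => g x ^ 2) := by
  set c : Finset (Fin m) → ℝ := fun S => Ex (fun x => g x * chi S x) with hc
  have z := Ex_nonneg fun x => sq_nonneg (g x - ∑ S ∈ F, c S * chi S x)
  have : ∀ x, (g x - ∑ S ∈ F, c S * chi S x) ^ 2 = g x ^ 2 +
      (-2 * ∑ S ∈ F, c S * (g x * chi S x) +
        ∑ S ∈ F, ∑ T ∈ F, c S * c T * (chi S x * chi T x)) := by
    intro x
    have e1 : ∑ S ∈ F, c S * (g x * chi S x) = g x * ∑ S ∈ F, c S * chi S x := by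
      rw [mul_sum]; exact sum_congr rfl fun S _ => by ring
    have e2 : ∑ S ∈ F, ∑ T ∈ F, c S * c T * (chi S x * chi T x)
        = (∑ S ∈ F, c S * chi S x) ^ 2 := by
      rw [sq, sum_mul_sum]
      exact sum_congr rfl fun S _ => sum_congr rfl fun T _ => by ring
    rw [e1, e2]; ring
  rw [Ex_congr this] at z
  simp only [Ex_add, Ex_mul, Ex_sum, chi_orth, mul_ite, mul_one, mul_zero, sum_ite_eq] at z
  have e3 : ∑ S ∈ F, (if S ∈ F then c S * c S else 0) = ∑ S ∈ F, c S ^ 2 :=
    sum_congr rfl fun S hS => by rw [if_pos hS, sq]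
  have e4 : ∑ S ∈ F, c S * Ex (fun x => g x * chi S x) = ∑ S ∈ F, c S ^ 2 :=
    sum_congr rfl fun S _ => by rw [sq]
  rw [e3, e4] at z
  change ∑ S ∈ F, c S ^ 2 ≤ _
  linarith

theorem link {m n : ℕ} (blk : Fin m → Fin n) (f : (Fin m → Bool) → ℝ) :
    ∑ S ∈ univ.filter (fun S : Finset (Fin m) => ∃ j, ∀ i ∈ S, blk i = j),
      Ex (fun x => f x * chi S x) ^ 2
    ≤ Ex f ^ 2 + ∑ j, Ex (fun x => (cond (fun i => blk i = j) f x - Ex f) ^ 2) := by
  set μ := Ex f with hμd
  set X : Fin n → (Fin m → Bool) → ℝ := fun j x => cond (fun i => blk i = j) f x - μ with hX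
  have hd : ∀ j, Dep (fun i => blk i = j) (X j) := fun j => (cond_dep _ f).comp (fun s => s - μ)
  have h0 : ∀ j, Ex (X j) = 0 := by
    intro j
    simp only [hX]
    rw [Ex_sub, Ex_const]
    exact sub_eq_zero.2 (Ex_mix _ f)
  have b := bessel (univ.filter (fun S : Finset (Fin m) => ∃ j, ∀ i ∈ S, blk i = j))
    (fun x => μ + ∑ j, X j x)
  have e1 : Ex (fun x => (μ + ∑ j, X j x) ^ 2) = μ ^ 2 + ∑ j, Ex (fun x => X j x ^ 2) := by
    have : ∀ x, (μ + ∑ j, X j x) ^ 2 = μ ^ 2 + (2 * μ * ∑ j, X j x + (∑ j, X j x) ^ 2) := by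
      intro x; ring
    rw [Ex_congr this]
    simp only [Ex_add, Ex_mul, Ex_const, Ex_sum, orth hd h0, h0, sum_const_zero]
    ring
  rw [e1] at b
  refine le_trans (le_of_eq (sum_congr rfl fun S hS => ?_)) b
  obtain ⟨j, hj⟩ := (mem_filter.1 hS).2
  congr 1
  have : ∀ x, (μ + ∑ k, X k x) * chi S x = chi S x * cond (fun i => blk i = j) f x +
      (∑ k ∈ univ.erase j, X k x) * chi S x := by
    intro x
    rw [← sum_erase_add _ _ (mem_univ j)]
    simp only [hX]; ring
  rw [Ex_congr this, Ex_add, cond_mul f (chi_dep hj),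
    ind (dep_er hd j) (chi_dep fun i hi h => h (hj i hi)), Ex_sum]
  simp only [h0, sum_const_zero, zero_mul, add_zero]
  exact Ex_congr fun x => mul_comm _ _

theorem half {m n : ℕ} (blk : Fin m → Fin n) (ε : ℝ) (f : (Fin m → Bool) → Bool)
    (hf : 1 - ε ≤ ∑ S ∈ univ.filter (fun S : Finset (Fin m) => ∃ j, ∀ i ∈ S, blk i = j),
      coef f S ^ 2) (hμ : Ex (fun x => sg (f x)) ≤ 0) :
    ∃ h : (j : Fin n) → ({i // blk i = j} → Bool) → Bool,
      Ex (fun x => (sg (f x) - sg (decide (∃ j, h j (fun i => x i.1) = true))) ^ 2)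
        ≤ 100000 * ε := by
  classical
  obtain ⟨h, hd, ho⟩ := core (blk := blk) (fun x => sg (f x)) (fun x => sg_or _) hμ ε
    (hf.trans (link blk _))
  refine ⟨fun j z => decide (h j (fun i => if hi : blk i = j then z ⟨i, hi⟩ else false)), ?_⟩
  have key : ∀ x : Fin m → Bool,
      (∃ j, decide (h j (fun i => if _hi : blk i = j then x i else false)) = true)
        ↔ ∃ j, h j x := by
    intro x
    refine exists_congr fun j => ?_
    rw [decide_eq_true_iff]
    exact hd j _ _ fun i hi => by simp [hi]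
  apply ho
  · intro x hx
    rw [decide_eq_true ((key x).2 hx)]; rfl
  · intro x hx
    rw [decide_eq_false (fun hc => hx ((key x).1 hc))]; simp [sg]

theorem result : ∃ K : ℝ, ∀ (m n : ℕ) (blk : Fin m → Fin n) (ε : ℝ)
    (f : (Fin m → Bool) → Bool),
    1 - ε ≤ ∑ S ∈ univ.filter (fun S : Finset (Fin m) => ∃ j, ∀ i ∈ S, blk i = j),
      coef f S ^ 2 →
    ∃ h : (j : Fin n) → ({i // blk i = j} → Bool) → Bool,
      Ex (fun x => (sg (f x) - sg (decide (∃ j, h j (fun i => x i.1) = true))) ^ 2) ≤ K * ε ∨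
      Ex (fun x => (sg (f x) - sg (decide (∀ j, h j (fun i => x i.1) = true))) ^ 2) ≤ K * ε := by
  refine ⟨100000, fun m n blk ε f hf => ?_⟩
  rcases le_total (Ex (fun x => sg (f x))) 0 with hμ | hμ
  · obtain ⟨h, hh⟩ := half blk ε f hf hμ
    exact ⟨h, Or.inl hh⟩
  · have e : ∀ S, coef (fun x => !f x) S ^ 2 = coef f S ^ 2 := by
      intro S
      have : coef (fun x => !f x) S = -1 * coef f S := by
        rw [coef, coef, ← Ex_mul]
        exact Ex_congr fun x => by rw [sg_not]; ring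
      rw [this]; ring
    have e2 : Ex (fun x => sg (!f x)) = -1 * Ex (fun x => sg (f x)) := by
      rw [← Ex_mul]
      exact Ex_congr fun x => by rw [sg_not]; ring
    obtain ⟨h, hh⟩ := half blk ε (fun x => !f x) (by simpa only [e] using hf) (by linarith)
    refine ⟨fun j z => !h j z, Or.inr (le_trans (le_of_eq (Ex_congr fun x => ?_)) hh)⟩
    have : decide (∀ j, (!h j (fun i => x i.1)) = true)
        = !decide (∃ j, h j (fun i => x i.1) = true) := by
      by_cases hc : ∃ j, h j (fun i => x i.1) = true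
      · obtain ⟨j, hj⟩ := hc
        rw [decide_eq_true (⟨j, hj⟩ : ∃ j, h j (fun i => x i.1) = true),
          decide_eq_false (fun ha => by simpa [hj] using ha j)]
        rfl
      · rw [decide_eq_false hc, decide_eq_true (fun j => by simpa using fun hj => hc ⟨j, hj⟩)]
        rfl
    rw [this, sg_not, sg_not]; ring

end Pool.Agent.Results.MP_c2536d_co.OrAnd
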